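import Pool.Agent.X154.KlD

set_option autoImplicit false

/-!
Q1 of `MP_1c25d9_gt` is false, in every dimension `m ≥ 2` and for every real number `c`: it fails in
the hyperbolic spaces of curvature `-K` for all `K > 0` with `K ≥ 4096 |c|` (for `c = 0`: in every
hyperbolic space).

In the Klein model the domain is `(κ² - y²) (1 - |x|²) ≥ κ⁴` with `κ = 1/4`, where `y` is a coordinate
of `x`: a long thin domain with a wide rim. For `K = 1` its normal curvatures lie between `1/64` and
`3`, but its half-width at the waist is less than `3/10 < 1/3`.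
-/

namespace Pool.Agent.Results.MP_1c25d9_gt.NoRolling

open Pool.Agent.X154.Kl

/-- For all `m ≥ 2`, all real `c` and all `K > 0` with `4096 |c| ≤ K` (so that `-K ≤ c`) there are
`lam`, satisfying the sphere constraints for `c`, the number `R = R_lam` with `ct_c R = lam`, and in
the `m`-dimensional hyperbolic space of curvature `-K` a compact convex domain with smooth boundary
whose normal curvatures are at most `lam` and, if `c < 0`, at least `√(-c)`, in which a ball of radius
`R` does not roll freely. -/
theorem _root_.Pool.Agent.Results.MP_1c25d9_gt.NoRolling.result :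
    ∀ m : ℕ, 2 ≤ m → ∀ c K : ℝ, 0 < K → 4096 * |c| ≤ K → -K ≤ c ∧
      ∃ lam : ℝ, 0 < lam ∧ (c < 0 → √(-c) < lam) ∧
      ∃ R : ℝ, 0 < R ∧ (0 < c → R * √c < Real.pi) ∧ ct c R = lam ∧
      ∃ D : Set (EuclideanSpace ℝ (Fin m)), IsDom D ∧ Convex ℝ D ∧ NormalCurvLE K D lam ∧
        (c < 0 → NormalCurvGE K D (√(-c))) ∧ ¬ RollsFreely K D R := by
  intro m hm c K hK hcK
  have hk : 0 < √K := Real.sqrt_pos.mpr hK
  have hsq : √|c| ≤ √K / 64 := by
    rw [Real.sqrt_le_left (by positivity), div_pow, Real.sq_sqrt hK.le]
    linarith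
  obtain ⟨R, hR0, hR1, hR2, hR3⟩ := exists_R hK hcK
  refine ⟨?_, 3 * √K, by positivity, ?_, R, hR0, hR1, hR2, ?_⟩
  · have := neg_abs_le c
    have := abs_nonneg c
    linarith
  · intro hc
    rw [abs_of_neg hc] at hsq
    linarith
  · set e : EuclideanSpace ℝ (Fin m) := EuclideanSpace.single ⟨0, by omega⟩ 1 with he
    have hen : ‖e‖ = 1 := by rw [he]; simp
    refine ⟨DD e, isDom (by rw [finrank_euclideanSpace, Fintype.card_fin]; omega) e, DD_convex e, ?_, ?_, not_rolls hK hen hR3⟩
    · intro γ hγ hf ν hν
      exact (second_form hK hen hγ hf hν).1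
    · intro hc γ hγ hf ν hν
      refine le_trans ?_ (second_form hK hen hγ hf hν).2
      have h0 : 0 ≤ met K (γ 0) (deriv γ 0) (deriv γ 0) := by
        have hA := (mem_frontier_iff.mp hf.self_of_nhds).1
        unfold AA at hA
        unfold met
        rw [real_inner_self_eq_norm_sq]
        have : 0 ≤ inner ℝ (γ 0) (deriv γ 0) * inner ℝ (γ 0) (deriv γ 0) := mul_self_nonneg _
        positivity
      rw [abs_of_neg hc] at hsq
      exact mul_le_mul_of_nonneg_right hsq h0

end Pool.Agent.Results.MP_1c25d9_gt.NoRolling
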